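import Pool.Agent.MWFE.StmtsB
import Pool.Agent.Helper11_MWE.PLMb

/-!
# Squad MWFE, row PMZ: rearrangements of block `0` which keep the order of `x`, `y`, `z`
-/

set_option autoImplicit false

namespace Pool.Agent.MWFE.H39

open Pool.Agent.Helper14_MV Pool.Agent.Helper2_MV Pool.Agent.MVD
open Pool.Agent.MWE (Can XX fxy dxy dx dy up cp L4 pr Xs xl isx Fs nd nr)
open Pool.Agent.MWGR (cb)

theorem bw_append (R S : List ℕ) (B : ℕ → List ℕ) : Bw (R ++ S) B = Bw R B ++ Bw S B :=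
  List.flatMap_append

theorem bw_cons (a : ℕ) (S : List ℕ) (B : ℕ → List ℕ) :
    Bw (a :: S) B = B a ++ (3 * a + 2) :: Bw S B := by
  show (B a ++ [3 * a + 2]) ++ Bw S B = _
  rw [List.append_assoc]
  rfl

theorem bw_congr {R : List ℕ} {B B' : ℕ → List ℕ} (h : ∀ r ∈ R, B r = B' r) :
    Bw R B = Bw R B' := by
  induction R with
  | nil => rfl
  | cons a R ih =>
    rw [bw_cons, bw_cons, h a List.mem_cons_self, ih fun r hr => h r (List.mem_cons_of_mem _ hr)]

theorem up_at (B : ℕ → List ℕ) (D : List ℕ) : up B 0 D 0 = D := by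
  unfold up
  rw [if_pos rfl]

theorem up_ne (B : ℕ → List ℕ) (D : List ℕ) (r : ℕ) (h : r ≠ 0) : up B 0 D r = B r := by
  unfold up
  rw [if_neg h]

theorem up_self (B : ℕ → List ℕ) : up B 0 (B 0) = B := by
  funext q
  unfold up
  by_cases h : q = 0
  · rw [if_pos h, h]
  · rw [if_neg h]

theorem mem_bw {R : List ℕ} {B : ℕ → List ℕ} {r a : ℕ} (hr : r ∈ R) (ha : a ∈ B r) :
    a ∈ Bw R B :=
  List.mem_flatMap.2 ⟨r, hr, List.mem_append_left _ ha⟩

/-- the word with block `0` replaced -/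
theorem split {R R1 R2 R3 : List ℕ} (hR : R = R1 ++ 0 :: (R2 ++ 1 :: R3)) (hn : R.Nodup)
    (B : ℕ → List ℕ) (e D : List ℕ) :
    Bw R (up B 0 D) ++ e = Bw R1 B ++ (D ++ (2 :: (Bw R2 B ++ (B 1 ++ 5 :: (Bw R3 B ++ e))))) := by
  rw [hR, List.nodup_append, List.nodup_cons] at hn
  have h1 : 0 ∉ R1 := fun h => hn.2.2 0 h 0 List.mem_cons_self rfl
  have h2 : 0 ∉ R2 := fun h => hn.2.1.1 (List.mem_append_left _ h)
  have h3 : 0 ∉ R3 := fun h => hn.2.1.1 (List.mem_append_right _ (List.mem_cons_of_mem _ h))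
  have e1 : Bw R1 (up B 0 D) = Bw R1 B := bw_congr fun q hq => up_ne B D q fun h => by
    rw [h] at hq; exact h1 hq
  have e2 : Bw R2 (up B 0 D) = Bw R2 B := bw_congr fun q hq => up_ne B D q fun h => by
    rw [h] at hq; exact h2 hq
  have e3 : Bw R3 (up B 0 D) = Bw R3 B := bw_congr fun q hq => up_ne B D q fun h => by
    rw [h] at hq; exact h3 hq
  rw [hR, bw_append, bw_cons, bw_append, bw_cons, e1, e2, e3, up_at, up_ne B D 1 one_ne_zero]
  show (Bw R1 B ++ (D ++ 2 :: (Bw R2 B ++ (B 1 ++ 5 :: Bw R3 B)))) ++ e = _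
  simp only [List.append_assoc, List.cons_append]

theorem pmz (hl : LcfStmt) (hh : HhxStmt) (hu : UpzStmt) (hw : HwzStmt) : PmzStmt := by
  intro n β m R c B e hz hc hR hb hB D hD hF
  have hnd : R.Nodup := hR.nodup_iff.2 List.nodup_range
  obtain ⟨R1, R2, R3, hRR⟩ := hb
  have h0R : 0 ∈ R := hR.mem_iff.2 (List.mem_range.2 (by omega))
  have h1R : 1 ∈ R := hR.mem_iff.2 (List.mem_range.2 (by omega))
  refine Pool.Agent.MWE.H11.plm (fun a => decide (a = 0 ∨ a = 3 ∨ a = 3 * m + 1))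
    (fun D => RR β (Bw R B ++ e) (Bw R (up B 0 D) ++ e)) (B 0) D hD.symm hF.symm ?_ ?_
  · intro A C a b hp _ hab hP hE
    have hB1 : Bfz m R c (up B 0 (A ++ a :: b :: C)) e := ((hu m R c B e hR).1 0 _ hp).2 hB
    have ha0 : a ∈ A ++ a :: b :: C := List.mem_append_right _ List.mem_cons_self
    have hb0 : b ∈ A ++ a :: b :: C :=
      List.mem_append_right _ (List.mem_cons_of_mem _ List.mem_cons_self)
    have haB : a ∈ B 0 := hp.mem_iff.1 ha0
    have hbB : b ∈ B 0 := hp.mem_iff.1 hb0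
    -- the letters of block `0`
    have cls : ∀ u ∈ B 0, u = 0 ∨ u = 3 ∨ u = 3 * m + 1 ∨ (u ∈ c ∧ u % 3 = 0 ∧ 6 ≤ u) := by
      intro u hu0
      rcases hB.ct u (List.mem_append_left _ (mem_bw h0R hu0)) (hB.sf 0 u hu0) with h | h | h | h
      · exact Or.inl h
      · exact Or.inr (Or.inl h)
      · exact Or.inr (Or.inr (Or.inl h))
      · rcases hc.lo u h with ⟨d, hd, hud⟩ | h'
        · exfalso
          have hli := hB.li d hd 0 h0R
          rw [if_neg (by omega), ← hud] at hli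
          exact absurd (List.count_pos_iff.2 hu0) (by omega)
        · exact Or.inr (Or.inr (Or.inr ⟨h, h'.1, h'.2.1⟩))
    have inB1 : ∀ u, (u = 0 ∨ u = 3 ∨ (u ∈ c ∧ u % 3 = 0 ∧ 6 ≤ u)) → u ∈ B 1 := by
      intro u h
      rcases h with h | h | h
      · rw [h]
        exact List.count_pos_iff.1 (by rw [hB.x1]; exact one_pos)
      · rw [h]
        exact List.count_pos_iff.1 (by rw [hB.y1]; exact one_pos)
      · exact hB.fu u h.1
    have e1 : Bw R (up B 0 (A ++ a :: b :: C)) ++ e = (Bw R1 B ++ A) ++ a :: b ::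
        ((C ++ 2 :: Bw R2 B) ++ (B 1 ++ 5 :: (Bw R3 B ++ e))) := by
      rw [split hRR hnd]
      simp only [List.append_assoc, List.cons_append]
    have e2 : Bw R (up B 0 (A ++ b :: a :: C)) ++ e = (Bw R1 B ++ A) ++ b :: a ::
        ((C ++ 2 :: Bw R2 B) ++ (B 1 ++ 5 :: (Bw R3 B ++ e))) := by
      rw [split hRR hnd]
      simp only [List.append_assoc, List.cons_append]
    have hs : RR β (Bw R (up B 0 (A ++ a :: b :: C)) ++ e)
        (Bw R (up B 0 (A ++ b :: a :: C)) ++ e) := by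
      -- both letters in block `1`
      have lcf : a ∈ B 1 → b ∈ B 1 → RR β (Bw R (up B 0 (A ++ a :: b :: C)) ++ e)
          (Bw R (up B 0 (A ++ b :: a :: C)) ++ e) := by
        intro ha1 hb1
        rw [e1, e2]
        refine (hl β hz.ff hz.zz (Bw R1 B ++ A) (C ++ 2 :: Bw R2 B) (B 1)
          (5 :: (Bw R3 B ++ e)) a b ha1 hb1).1 ?_
        intro d hd
        rw [← e1]
        have hd1 : d ∈ up B 0 (A ++ a :: b :: C) 1 := by
          rw [up_ne _ _ 1 one_ne_zero]; exact hd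
        exact hB1.mu d (List.mem_append_left _ (mem_bw h1R hd1)) (hB1.sf 1 d hd1)
      -- both letters heavy
      have hea : (a = 3 * m + 1 ∨ (a % 3 = 0 ∧ 6 ≤ a)) → (b = 3 * m + 1 ∨ (b % 3 = 0 ∧ 6 ≤ b)) →
          RR β (Bw R (up B 0 (A ++ a :: b :: C)) ++ e)
            (Bw R (up B 0 (A ++ b :: a :: C)) ++ e) := by
        intro ha' hb'
        have hma : a ∈ Bw R (up B 0 (A ++ a :: b :: C)) ++ e :=
          List.mem_append_left _ (mem_bw h0R (by rw [up_at]; exact ha0))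
        have hmb : b ∈ Bw R (up B 0 (A ++ a :: b :: C)) ++ e :=
          List.mem_append_left _ (mem_bw h0R (by rw [up_at]; exact hb0))
        have hha := hw m R c _ e hB1.toBz a hma ha'
        have hhb := hw m R c _ e hB1.toBz b hmb hb'
        rw [e1] at hha hhb
        rw [e1, e2]
        exact hh n β hz (Bw R1 B ++ A) _ a b hha hhb
      have notP : ∀ u v : ℕ, (u = 0 ∨ u = 3 ∨ u = 3 * m + 1) → (v = 0 ∨ v = 3 ∨ v = 3 * m + 1) →
          ¬ (decide (u = 0 ∨ u = 3 ∨ u = 3 * m + 1) = true ∧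
            decide (v = 0 ∨ v = 3 ∨ v = 3 * m + 1) = true) → False :=
        fun u v h h' hn => hn ⟨decide_eq_true h, decide_eq_true h'⟩
      rcases cls a haB with ha | ha | ha | ha <;> rcases cls b hbB with hb | hb | hb | hb
      · exact (notP a b (Or.inl ha) (Or.inl hb) hP).elim
      · exact (notP a b (Or.inl ha) (Or.inr (Or.inl hb)) hP).elim
      · exact (notP a b (Or.inl ha) (Or.inr (Or.inr hb)) hP).elim
      · exact lcf (inB1 a (Or.inl ha)) (inB1 b (Or.inr (Or.inr hb)))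
      · exact (notP a b (Or.inr (Or.inl ha)) (Or.inl hb) hP).elim
      · exact (notP a b (Or.inr (Or.inl ha)) (Or.inr (Or.inl hb)) hP).elim
      · exact (notP a b (Or.inr (Or.inl ha)) (Or.inr (Or.inr hb)) hP).elim
      · exact lcf (inB1 a (Or.inr (Or.inl ha))) (inB1 b (Or.inr (Or.inr hb)))
      · exact (notP a b (Or.inr (Or.inr ha)) (Or.inl hb) hP).elim
      · exact (notP a b (Or.inr (Or.inr ha)) (Or.inr (Or.inl hb)) hP).elim
      · exact (notP a b (Or.inr (Or.inr ha)) (Or.inr (Or.inr hb)) hP).elim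
      · exact hea (Or.inl ha) (Or.inr hb.2)
      · exact lcf (inB1 a (Or.inr (Or.inr ha))) (inB1 b (Or.inl hb))
      · exact lcf (inB1 a (Or.inr (Or.inr ha))) (inB1 b (Or.inr (Or.inl hb)))
      · exact hea (Or.inr ha.2) (Or.inl hb)
      · exact hea (Or.inr ha.2) (Or.inr hb.2)
    exact β.trans hE hs
  · show RR β (Bw R B ++ e) (Bw R (up B 0 (B 0)) ++ e)
    rw [up_self]
    exact RR.refl _

end Pool.Agent.MWFE.H39
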